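import Pool.Agent.Helper87.SL.Goals

/-! Packet SL-BLK: block colourings. -/

set_option autoImplicit false

open Finset

namespace Pool.Agent.Helper77.SL

open Pool.Agent.Helper33.Schur
open Pool.Agent.Helper87.SL

theorem sum_mul (A B : ℕ) (F : ℕ → ℝ) :
    ∑ x ∈ range (A * B), F x = ∑ i ∈ range A, ∑ j ∈ range B, F (i * B + j) := by
  induction A with
  | zero => simp
  | succ A ih =>
    rw [Nat.succ_mul, Finset.sum_range_add, ih, sum_range_succ]

theorem sum_dec (q s m : ℕ) (F : ℕ → ℝ) :
    ∑ x ∈ range (q * s * m), F x =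
      ∑ a ∈ range q, ∑ i ∈ range s, ∑ u ∈ range m, F ((i * m + u) * q + a) := by
  rw [show q * s * m = (s * m) * q by ring, sum_mul, sum_mul]
  calc ∑ i ∈ range s, ∑ j ∈ range m, ∑ a ∈ range q, F ((i * m + j) * q + a)
      = ∑ i ∈ range s, ∑ a ∈ range q, ∑ j ∈ range m, F ((i * m + j) * q + a) := by
        refine sum_congr rfl fun i _ => ?_
        rw [sum_comm]
    _ = _ := by rw [sum_comm]

/-- the number of the pairs with `u + v + w < m` -/
theorem tri (m w : ℕ) (hw : w ≤ 1) :
    |2 * (∑ u ∈ range m, ∑ v ∈ range m, if u + v + w < m then (1 : ℝ) else 0) - (m : ℝ) ^ 2| ≤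
      (m : ℝ) := by
  have h1 : ∀ u ∈ range m, (∑ v ∈ range m, if u + v + w < m then (1 : ℝ) else 0) =
      ((m - w - u : ℕ) : ℝ) := by
    intro u hu
    rw [← sum_filter, sum_const, nsmul_eq_mul, mul_one]
    congr 1
    have : (range m).filter (fun v => u + v + w < m) = range (m - w - u) := by
      ext v
      simp only [mem_filter, mem_range]
      omega
    rw [this, card_range]
  rw [sum_congr rfl h1]
  have hm0 : (0 : ℝ) ≤ m := Nat.cast_nonneg m
  rcases Nat.eq_zero_or_pos m with h0 | h0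
  · subst h0
    simp
  have hG := Finset.sum_range_id_mul_two m
  have hG' : 2 * (∑ u ∈ range m, (u : ℝ)) = (m : ℝ) * (m - 1) := by
    have : ((∑ u ∈ range m, u : ℕ) : ℝ) * 2 = (m : ℝ) * ((m - 1 : ℕ) : ℝ) := by
      exact_mod_cast hG
    rw [Nat.cast_sum, Nat.cast_sub h0, Nat.cast_one] at this
    linarith
  have hcase : w = 0 ∨ w = 1 := by omega
  rcases hcase with h | h
  · subst h
    have e : ∑ u ∈ range m, ((m - 0 - u : ℕ) : ℝ) = ∑ u ∈ range m, ((u : ℝ) + 1) := by
      rw [← Finset.sum_range_reflect]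
      refine sum_congr rfl fun u hu => ?_
      rw [mem_range] at hu
      have : m - 0 - (m - 1 - u) = u + 1 := by omega
      rw [this]
      push_cast
      ring
    rw [e, sum_add_distrib, sum_const, card_range, nsmul_eq_mul, mul_one]
    rw [abs_le]
    constructor <;> nlinarith
  · subst h
    have e : ∑ u ∈ range m, ((m - 1 - u : ℕ) : ℝ) = ∑ u ∈ range m, (u : ℝ) :=
      Finset.sum_range_reflect (fun u => (u : ℝ)) m
    rw [e, hG']
    rw [abs_le]
    constructor <;> nlinarith

/-- the number of the pairs with a given carry -/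
theorem car (m w e : ℕ) (hw : w ≤ 1) (he : e ∈ range 2) :
    |2 * (∑ u ∈ range m, ∑ v ∈ range m,
      if (if u + v + w < m then 0 else 1) = e then (1 : ℝ) else 0) - (m : ℝ) ^ 2| ≤ (m : ℝ) := by
  have ht := tri m w hw
  have hcase : e = 0 ∨ e = 1 := by
    rw [mem_range] at he
    omega
  rcases hcase with h | h
  · subst h
    have e1 : (∑ u ∈ range m, ∑ v ∈ range m,
        if (if u + v + w < m then 0 else 1) = 0 then (1 : ℝ) else 0) =
        ∑ u ∈ range m, ∑ v ∈ range m, if u + v + w < m then (1 : ℝ) else 0 := by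
      refine sum_congr rfl fun u _ => sum_congr rfl fun v _ => ?_
      by_cases h : u + v + w < m <;> simp [h]
    rw [e1]
    exact ht
  · subst h
    have e1 : (∑ u ∈ range m, ∑ v ∈ range m,
        if (if u + v + w < m then 0 else 1) = 1 then (1 : ℝ) else 0) =
        (m : ℝ) ^ 2 - ∑ u ∈ range m, ∑ v ∈ range m, if u + v + w < m then (1 : ℝ) else 0 := by
      have e2 : (m : ℝ) ^ 2 = ∑ u ∈ range m, ∑ v ∈ range m, (1 : ℝ) := by
        simp only [sum_const, card_range, nsmul_eq_mul, mul_one]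
        ring
      rw [e2, ← sum_sub_distrib]
      refine sum_congr rfl fun u _ => ?_
      rw [← sum_sub_distrib]
      refine sum_congr rfl fun v _ => ?_
      by_cases h : u + v + w < m <;> simp [h]
    rw [e1]
    rw [abs_le] at ht ⊢
    constructor <;> linarith [ht.1, ht.2]

/-- the indicator of a monochromatic configuration -/
noncomputable def g {k : ℕ} (q s : ℕ) (c : ℕ → ℕ → Fin k) (a b i j e : ℕ) : ℝ :=
  if i + j + e < s ∧ c a i = c b j ∧ c b j = c ((a + b) % q) (i + j + e) then 1 else 0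

/-- the indicator of a monochromatic pair -/
noncomputable def F {k : ℕ} (q s m : ℕ) (c : ℕ → ℕ → Fin k) (x y : ℕ) : ℝ :=
  if x + y < q * s * m ∧ c (x % q) (x / (q * m)) = c (y % q) (y / (q * m)) ∧
    c (y % q) (y / (q * m)) = c ((x + y) % q) ((x + y) / (q * m)) then 1 else 0

theorem dm (q m i u a : ℕ) (hu : u < m) (ha : a < q) :
    ((i * m + u) * q + a) % q = a ∧ ((i * m + u) * q + a) / (q * m) = i := by
  have hq : 0 < q := by omega
  have hm : 0 < m := by omega
  constructor
  · rw [mul_comm, Nat.mul_add_mod, Nat.mod_eq_of_lt ha]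
  · rw [← Nat.div_div_eq_div_mul]
    have e1 : ((i * m + u) * q + a) / q = i * m + u := by
      rw [mul_comm, Nat.mul_add_div hq, Nat.div_eq_of_lt ha, add_zero]
    rw [e1, mul_comm, Nat.mul_add_div hm, Nat.div_eq_of_lt hu, add_zero]

theorem F_eq {k : ℕ} (q s m : ℕ) (c : ℕ → ℕ → Fin k) (a b i j u v : ℕ) (ha : a < q) (hb : b < q)
    (hu : u < m) (hv : v < m) :
    F q s m c ((i * m + u) * q + a) ((j * m + v) * q + b) =
      g q s c a b i j (if u + v + (if a + b < q then 0 else 1) < m then 0 else 1) := by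
  obtain ⟨x1, x2⟩ := dm q m i u a hu ha
  obtain ⟨y1, y2⟩ := dm q m j v b hv hb
  set w := (if a + b < q then 0 else 1) with hw
  set e := (if u + v + w < m then 0 else 1) with he
  have hw1 : w ≤ 1 := by rw [hw]; split_ifs <;> omega
  have e1 : a + b = w * q + (a + b) % q := by
    rw [hw]
    split_ifs with h
    · rw [Nat.mod_eq_of_lt h]
      omega
    · have : (a + b) % q = a + b - q := by
        rw [Nat.mod_eq_sub_mod (by omega), Nat.mod_eq_of_lt (by omega)]
      omega
  have e2 : u + v + w = e * m + (u + v + w - e * m) ∧ u + v + w - e * m < m := by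
    rw [he]
    split_ifs with h
    · constructor <;> omega
    · constructor <;> omega
  have e3 : (i * m + u) * q + a + ((j * m + v) * q + b) =
      ((i + j + e) * m + (u + v + w - e * m)) * q + (a + b) % q := by
    have f1 : (i * m + u) * q + a + ((j * m + v) * q + b) =
        ((i + j) * m + (u + v)) * q + (a + b) := by ring
    rw [f1]
    have f2 : ((i + j) * m + (u + v)) * q + (a + b) =
        ((i + j) * m + (u + v + w)) * q + (a + b) % q := by
      conv_lhs => rw [e1]
      ring
    rw [f2]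
    have f3 : (i + j) * m + (u + v + w) = (i + j + e) * m + (u + v + w - e * m) := by
      conv_lhs => rw [e2.1]
      ring
    rw [f3]
  obtain ⟨z1, z2⟩ := dm q m (i + j + e) (u + v + w - e * m) ((a + b) % q) e2.2
    (Nat.mod_lt _ (by omega))
  unfold F g
  rw [x1, x2, y1, y2, e3, z1, z2]
  have hlt : (((i + j + e) * m + (u + v + w - e * m)) * q + (a + b) % q < q * s * m) ↔
      i + j + e < s := by
    have hpos : 0 < q * m := Nat.mul_pos (by omega) (by omega)
    have := Nat.div_lt_iff_lt_mul (x := ((i + j + e) * m + (u + v + w - e * m)) * q + (a + b) % q)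
      (y := s) hpos
    rw [z2] at this
    rw [this, show q * s * m = s * (q * m) by ring]
  simp only [hlt]

/-- the sum over the positions inside the blocks -/
theorem inner {k : ℕ} (q s m : ℕ) (c : ℕ → ℕ → Fin k) (a b i j : ℕ) (ha : a < q) (hb : b < q) :
    |2 * (∑ u ∈ range m, ∑ v ∈ range m, F q s m c ((i * m + u) * q + a) ((j * m + v) * q + b)) -
      (m : ℝ) ^ 2 * ∑ e ∈ range 2, g q s c a b i j e| ≤ 2 * (m : ℝ) := by
  set w := (if a + b < q then 0 else 1) with hw
  have hw1 : w ≤ 1 := by rw [hw]; split_ifs <;> omega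
  have h1 : (∑ u ∈ range m, ∑ v ∈ range m,
      F q s m c ((i * m + u) * q + a) ((j * m + v) * q + b)) =
      ∑ e ∈ range 2, g q s c a b i j e * ∑ u ∈ range m, ∑ v ∈ range m,
        (if (if u + v + w < m then 0 else 1) = e then (1 : ℝ) else 0) := by
    have h2 : ∀ u ∈ range m, ∀ v ∈ range m,
        F q s m c ((i * m + u) * q + a) ((j * m + v) * q + b) =
        ∑ e ∈ range 2, g q s c a b i j e *
          (if (if u + v + w < m then 0 else 1) = e then (1 : ℝ) else 0) := by
      intro u hu v hv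
      rw [mem_range] at hu hv
      rw [F_eq q s m c a b i j u v ha hb hu hv, ← hw, sum_range_succ, sum_range_one]
      by_cases h : u + v + w < m <;> simp [h]
    calc (∑ u ∈ range m, ∑ v ∈ range m,
        F q s m c ((i * m + u) * q + a) ((j * m + v) * q + b))
        = ∑ u ∈ range m, ∑ v ∈ range m, ∑ e ∈ range 2, g q s c a b i j e *
          (if (if u + v + w < m then 0 else 1) = e then (1 : ℝ) else 0) :=
          sum_congr rfl fun u hu => sum_congr rfl fun v hv => h2 u hu v hv
      _ = ∑ u ∈ range m, ∑ e ∈ range 2, ∑ v ∈ range m, g q s c a b i j e *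
          (if (if u + v + w < m then 0 else 1) = e then (1 : ℝ) else 0) :=
          sum_congr rfl fun u _ => sum_comm
      _ = ∑ e ∈ range 2, ∑ u ∈ range m, ∑ v ∈ range m, g q s c a b i j e *
          (if (if u + v + w < m then 0 else 1) = e then (1 : ℝ) else 0) := sum_comm
      _ = _ := by
          refine sum_congr rfl fun e _ => ?_
          rw [mul_sum]
          refine sum_congr rfl fun u _ => ?_
          rw [mul_sum]
  rw [h1]
  have h3 : 2 * (∑ e ∈ range 2, g q s c a b i j e * ∑ u ∈ range m, ∑ v ∈ range m,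
        (if (if u + v + w < m then 0 else 1) = e then (1 : ℝ) else 0)) -
      (m : ℝ) ^ 2 * ∑ e ∈ range 2, g q s c a b i j e =
      ∑ e ∈ range 2, g q s c a b i j e * (2 * (∑ u ∈ range m, ∑ v ∈ range m,
        (if (if u + v + w < m then 0 else 1) = e then (1 : ℝ) else 0)) - (m : ℝ) ^ 2) := by
    rw [mul_sum, mul_sum, ← sum_sub_distrib]
    refine sum_congr rfl fun e _ => ?_
    ring
  rw [h3]
  calc |∑ e ∈ range 2, g q s c a b i j e * (2 * (∑ u ∈ range m, ∑ v ∈ range m,
        (if (if u + v + w < m then 0 else 1) = e then (1 : ℝ) else 0)) - (m : ℝ) ^ 2)|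
      ≤ ∑ e ∈ range 2, |g q s c a b i j e * (2 * (∑ u ∈ range m, ∑ v ∈ range m,
        (if (if u + v + w < m then 0 else 1) = e then (1 : ℝ) else 0)) - (m : ℝ) ^ 2)| :=
        abs_sum_le_sum_abs _ _
    _ ≤ ∑ e ∈ range 2, (m : ℝ) := by
        refine sum_le_sum fun e he => ?_
        rw [abs_mul]
        have h4 := car m w e hw1 he
        have h5 : |g q s c a b i j e| ≤ 1 := by
          unfold g
          split_ifs <;> simp
        calc |g q s c a b i j e| * |2 * (∑ u ∈ range m, ∑ v ∈ range m,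
              (if (if u + v + w < m then 0 else 1) = e then (1 : ℝ) else 0)) - (m : ℝ) ^ 2|
            ≤ 1 * m := mul_le_mul h5 h4 (abs_nonneg _) zero_le_one
          _ = m := one_mul _
    _ = 2 * m := by simp

/-- comparison of the count with `cnt` -/
theorem main {k : ℕ} (q s m : ℕ) (c : ℕ → ℕ → Fin k) :
    |2 * (∑ x ∈ range (q * s * m), ∑ y ∈ range (q * s * m), F q s m c x y) -
      (m : ℝ) ^ 2 * cnt q s c| ≤ 2 * (m : ℝ) * (q : ℝ) ^ 2 * (s : ℝ) ^ 2 := by
  have h1 : (∑ x ∈ range (q * s * m), ∑ y ∈ range (q * s * m), F q s m c x y) =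
      ∑ a ∈ range q, ∑ b ∈ range q, ∑ i ∈ range s, ∑ j ∈ range s, ∑ u ∈ range m,
        ∑ v ∈ range m, F q s m c ((i * m + u) * q + a) ((j * m + v) * q + b) := by
    rw [sum_dec]
    refine sum_congr rfl fun a _ => ?_
    calc ∑ i ∈ range s, ∑ u ∈ range m, ∑ y ∈ range (q * s * m),
          F q s m c ((i * m + u) * q + a) y
        = ∑ i ∈ range s, ∑ u ∈ range m, ∑ b ∈ range q, ∑ j ∈ range s, ∑ v ∈ range m,
          F q s m c ((i * m + u) * q + a) ((j * m + v) * q + b) :=
          sum_congr rfl fun i _ => sum_congr rfl fun u _ => sum_dec q s m _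
      _ = ∑ i ∈ range s, ∑ b ∈ range q, ∑ u ∈ range m, ∑ j ∈ range s, ∑ v ∈ range m,
          F q s m c ((i * m + u) * q + a) ((j * m + v) * q + b) :=
          sum_congr rfl fun i _ => sum_comm
      _ = ∑ b ∈ range q, ∑ i ∈ range s, ∑ u ∈ range m, ∑ j ∈ range s, ∑ v ∈ range m,
          F q s m c ((i * m + u) * q + a) ((j * m + v) * q + b) := sum_comm
      _ = _ := sum_congr rfl fun b _ => sum_congr rfl fun i _ => sum_comm
  have h2 : (cnt q s c : ℝ) = ∑ a ∈ range q, ∑ b ∈ range q, ∑ i ∈ range s, ∑ j ∈ range s,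
      ∑ e ∈ range 2, g q s c a b i j e := by
    unfold cnt g
    push_cast
    rfl
  have h3 : 2 * (∑ x ∈ range (q * s * m), ∑ y ∈ range (q * s * m), F q s m c x y) -
      (m : ℝ) ^ 2 * cnt q s c = ∑ a ∈ range q, ∑ b ∈ range q, ∑ i ∈ range s, ∑ j ∈ range s,
        (2 * (∑ u ∈ range m, ∑ v ∈ range m,
          F q s m c ((i * m + u) * q + a) ((j * m + v) * q + b)) -
          (m : ℝ) ^ 2 * ∑ e ∈ range 2, g q s c a b i j e) := by
    rw [h1, h2]
    simp only [mul_sum, sum_sub_distrib]
  rw [h3]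
  calc |∑ a ∈ range q, ∑ b ∈ range q, ∑ i ∈ range s, ∑ j ∈ range s,
        (2 * (∑ u ∈ range m, ∑ v ∈ range m,
          F q s m c ((i * m + u) * q + a) ((j * m + v) * q + b)) -
          (m : ℝ) ^ 2 * ∑ e ∈ range 2, g q s c a b i j e)|
      ≤ ∑ a ∈ range q, ∑ b ∈ range q, ∑ i ∈ range s, ∑ j ∈ range s, (2 * (m : ℝ)) := by
        refine (abs_sum_le_sum_abs _ _).trans (sum_le_sum fun a ha => ?_)
        refine (abs_sum_le_sum_abs _ _).trans (sum_le_sum fun b hb => ?_)
        refine (abs_sum_le_sum_abs _ _).trans (sum_le_sum fun i _ => ?_)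
        refine (abs_sum_le_sum_abs _ _).trans (sum_le_sum fun j _ => ?_)
        exact inner q s m c a b i j (mem_range.1 ha) (mem_range.1 hb)
    _ = 2 * m * (q : ℝ) ^ 2 * (s : ℝ) ^ 2 := by
        simp only [sum_const, card_range, nsmul_eq_mul]
        ring

theorem F_nonneg {k : ℕ} (q s m : ℕ) (c : ℕ → ℕ → Fin k) (x y : ℕ) : 0 ≤ F q s m c x y := by
  unfold F
  split_ifs <;> norm_num

theorem F_le {k : ℕ} (q s m : ℕ) (c : ℕ → ℕ → Fin k) (x y : ℕ) : F q s m c x y ≤ 1 := by
  unfold F
  split_ifs <;> norm_num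

theorem sum_Icc (M : ℕ) (hM : 1 ≤ M) (G : ℕ → ℝ) :
    ∑ x ∈ Icc 1 (M - 1), G x = ∑ x ∈ range M, if 1 ≤ x then G x else 0 := by
  rw [← sum_filter]
  refine sum_congr ?_ fun _ _ => rfl
  ext x
  simp only [mem_Icc, mem_filter, mem_range]
  omega

theorem ordP_eq {k : ℕ} (q s m : ℕ) (c : ℕ → ℕ → Fin k) (hM : 1 ≤ q * s * m) :
    (ordP (fun x => c (x % q) (x / (q * m))) (q * s * m - 1) 0 : ℝ) =
      ∑ x ∈ range (q * s * m), ∑ y ∈ range (q * s * m),
        if 1 ≤ x ∧ 1 ≤ y then F q s m c x y else 0 := by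
  unfold ordP
  rw [card_filter, Nat.cast_sum, sum_product, sum_Icc _ hM]
  refine sum_congr rfl fun x _ => ?_
  by_cases hx : 1 ≤ x
  · rw [if_pos hx, sum_Icc _ hM]
    refine sum_congr rfl fun y _ => ?_
    by_cases hy : 1 ≤ y
    · have hxy : 1 ≤ x ∧ 1 ≤ y := ⟨hx, hy⟩
      rw [if_pos hy, if_pos hxy]
      unfold F
      rw [Nat.cast_ite, Nat.cast_one, Nat.cast_zero]
      refine if_congr ?_ rfl rfl
      simp only [Nat.sub_zero, add_zero]
      constructor
      · rintro ⟨_, h1, h2, h3⟩
        exact ⟨by omega, h2, h3⟩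
      · rintro ⟨h1, h2, h3⟩
        exact ⟨by omega, by omega, h2, h3⟩
    · rw [if_neg hy, if_neg (fun h => hy h.2)]
  · rw [if_neg hx]
    symm
    apply sum_eq_zero
    intro y _
    rw [if_neg (fun h => hx h.1)]

theorem gBLK : G_BLK := by
  intro k q s m c hq hs hm
  have hM : 1 ≤ q * s * m := Nat.mul_pos (Nat.mul_pos hq hs) hm
  rw [ordP_eq q s m c hM]
  have h1 := main q s m c
  set P := ∑ x ∈ range (q * s * m), ∑ y ∈ range (q * s * m), F q s m c x y with hP
  set O := ∑ x ∈ range (q * s * m), ∑ y ∈ range (q * s * m),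
        (if 1 ≤ x ∧ 1 ≤ y then F q s m c x y else 0) with hO
  have h2 : O ≤ P := by
    refine sum_le_sum fun x _ => sum_le_sum fun y _ => ?_
    split_ifs
    · exact le_rfl
    · exact F_nonneg q s m c x y
  have h3 : P - O ≤ 2 * ((q : ℝ) * s * m) := by
    have e1 : P - O = ∑ x ∈ range (q * s * m), ∑ y ∈ range (q * s * m),
        (F q s m c x y - (if 1 ≤ x ∧ 1 ≤ y then F q s m c x y else 0)) := by
      rw [hP, hO]
      simp only [sum_sub_distrib]
    rw [e1]
    calc ∑ x ∈ range (q * s * m), ∑ y ∈ range (q * s * m),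
        (F q s m c x y - (if 1 ≤ x ∧ 1 ≤ y then F q s m c x y else 0))
        ≤ ∑ x ∈ range (q * s * m), ∑ y ∈ range (q * s * m),
          ((if x = 0 then (1 : ℝ) else 0) + (if y = 0 then (1 : ℝ) else 0)) := by
          refine sum_le_sum fun x _ => sum_le_sum fun y _ => ?_
          have f1 := F_le q s m c x y
          have f2 := F_nonneg q s m c x y
          by_cases hx : x = 0
          · rw [if_neg (fun h => by omega), if_pos hx]
            split_ifs <;> linarith
          · by_cases hy : y = 0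
            · rw [if_neg (fun h => by omega), if_neg hx, if_pos hy]
              linarith
            · rw [if_pos ⟨by omega, by omega⟩, if_neg hx, if_neg hy]
              linarith
      _ = 2 * ((q : ℝ) * s * m) := by
          have hcast : ((q * s * m : ℕ) : ℝ) = (q : ℝ) * s * m := by push_cast; ring
          have e3 : ∀ x ∈ range (q * s * m), (∑ y ∈ range (q * s * m),
              ((if x = 0 then (1 : ℝ) else 0) + (if y = 0 then (1 : ℝ) else 0))) =
              (q : ℝ) * s * m * (if x = 0 then (1 : ℝ) else 0) + 1 := by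
            intro x _
            rw [sum_add_distrib, sum_const, card_range, nsmul_eq_mul, hcast,
              sum_ite_eq' (range (q * s * m)) 0 (fun _ => (1 : ℝ)), if_pos (mem_range.2 hM)]
          rw [sum_congr rfl e3, sum_add_distrib, ← mul_sum,
            sum_ite_eq' (range (q * s * m)) 0 (fun _ => (1 : ℝ)), if_pos (mem_range.2 hM),
            sum_const, card_range, nsmul_eq_mul, hcast]
          ring
  have hq' : (1 : ℝ) ≤ q := by exact_mod_cast hq
  have hs' : (1 : ℝ) ≤ s := by exact_mod_cast hs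
  have hm' : (0 : ℝ) ≤ m := Nat.cast_nonneg m
  have hqs : (1 : ℝ) ≤ (q : ℝ) * s := by nlinarith
  have h4 : (q : ℝ) * s * m ≤ m * (q : ℝ) ^ 2 * (s : ℝ) ^ 2 := by
    have : m * (q : ℝ) ^ 2 * (s : ℝ) ^ 2 = ((q : ℝ) * s) * ((q : ℝ) * s * m) := by ring
    rw [this]
    have h5 : 0 ≤ (q : ℝ) * s * m := by positivity
    nlinarith
  rw [abs_le] at h1 ⊢
  constructor <;> nlinarith [h1.1, h1.2]

end Pool.Agent.Helper77.SL
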